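import Pool.Agent.V1139.SL2.Leonard

set_option autoImplicit false

open Matrix Module Polynomial

namespace Pool.Agent.Results.MP_f77be9_al.NoAntiAut

open Pool.Agent.V1139.Leonard Pool.Agent.V1139.SL2

/-- `s` is a (`K`-linear, bijective) antiautomorphism of `End(V)`. -/
def IsAntiAutomorphism {K V : Type} [Field K] [AddCommGroup V] [Module K V]
    (s : Module.End K V → Module.End K V) : Prop :=
  IsLinearMap K s ∧ Function.Bijective s ∧ ∀ X Y : Module.End K V, s (X * Y) = s Y * s X

/-- The commutator `[X, Y] = XY - YX`. -/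
def comm {K V : Type} [Field K] [AddCommGroup V] [Module K V]
    (X Y : Module.End K V) : Module.End K V := X * Y - Y * X

/-- `s` maps `X` to a scalar multiple of `Y`. -/
def ToMultiple {K V : Type} [Field K] [AddCommGroup V] [Module K V]
    (s : Module.End K V → Module.End K V) (X Y : Module.End K V) : Prop :=
  ∃ a : K, s X = a • Y

/-- There is an antiautomorphism `s` of `End(V)` fixing `A` such that `s` maps `[A, B]` to a
scalar multiple of `[A, C]` and `[A, C]` to a scalar multiple of `[A, B]`. -/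
def HasSwap {K V : Type} [Field K] [AddCommGroup V] [Module K V]
    (A B C : Module.End K V) : Prop :=
  ∃ s : Module.End K V → Module.End K V, IsAntiAutomorphism s ∧ s A = A ∧
    ToMultiple s (comm A B) (comm A C) ∧ ToMultiple s (comm A C) (comm A B)

/-- Linear version used in the proofs. -/
def IsAntiAut {K V : Type} [Field K] [AddCommGroup V] [Module K V]
    (s : (V →ₗ[K] V) →ₗ[K] (V →ₗ[K] V)) : Prop :=
  Function.Bijective s ∧ ∀ X Y : V →ₗ[K] V, s (X ∘ₗ Y) = s Y ∘ₗ s X

variable {K : Type} [Field K]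

theorem anti_one {V : Type} [AddCommGroup V] [Module K V]
    (s : (V →ₗ[K] V) →ₗ[K] (V →ₗ[K] V)) (h : IsAntiAut s) : s LinearMap.id = LinearMap.id := by
  obtain ⟨X, hX⟩ := h.1.2 LinearMap.id
  have h1 := h.2 X LinearMap.id
  rw [LinearMap.comp_id, hX, LinearMap.comp_id] at h1
  exact h1.symm

theorem anti_aeval {V : Type} [AddCommGroup V] [Module K V]
    (s : (V →ₗ[K] V) →ₗ[K] (V →ₗ[K] V)) (h : IsAntiAut s) (A : V →ₗ[K] V) (hA : s A = A)
    (f : K[X]) : s (aeval (R := K) (A := Module.End K V) A f) = aeval (R := K) (A := Module.End K V) A f := by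
  have hpow : ∀ n : ℕ, s ((A : Module.End K V) ^ n) = (A : Module.End K V) ^ n := by
    intro n
    induction n with
    | zero => exact anti_one s h
    | succ n ih =>
      have h1 : ((A : Module.End K V) ^ (n + 1)) = (A ^ n : Module.End K V) ∘ₗ A := pow_succ _ _
      have h2 : ((A : Module.End K V) ^ (n + 1)) = A ∘ₗ (A ^ n : Module.End K V) := pow_succ' _ _
      rw [h1, h.2, ih, hA, ← h1, ← h2]
  induction f using Polynomial.induction_on' with
  | add p q hp hq => rw [map_add, map_add, hp, hq]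
  | monomial n a =>
    rw [aeval_monomial, ← Algebra.smul_def, map_smul, hpow]

theorem aeval_diag {n : ℕ} (t : Fin n → K) (f : K[X]) :
    aeval (R := K) (A := Module.End K (Fin n → K)) (Matrix.toLin' (Matrix.diagonal t)) f
      = Matrix.toLin' (Matrix.diagonal (fun i => f.eval (t i))) := by
  have h1 : Matrix.toLin' (Matrix.diagonal t)
      = (Matrix.toLinAlgEquiv' (R := K) (n := Fin n)).toAlgHom (Matrix.diagonalAlgHom K t) := rfl
  rw [h1, aeval_algHom_apply, aeval_algHom_apply]
  have h2 : aeval t f = fun i => f.eval (t i) := by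
    induction f using Polynomial.induction_on' with
    | add p q hp hq =>
      rw [map_add, hp, hq]
      ext i
      simp
    | monomial n a =>
      ext i
      simp [aeval_monomial, eval_monomial]
  rw [h2]
  rfl

theorem diag_mul_mul {n : ℕ} (a b c : Fin n → K) (U W : Matrix (Fin n) (Fin n) K)
    (i j : Fin n) (ha : ∀ k, k ≠ i → a k = 0) (hc : ∀ k, k ≠ i → c k = 0)
    (hb : ∀ k, k ≠ j → b k = 0) :
    Matrix.diagonal a * U * Matrix.diagonal b * W * Matrix.diagonal c
      = (b j * U i j * W j i * a i) • Matrix.diagonal c := by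
  ext k l
  rw [Matrix.mul_diagonal, Matrix.mul_apply]
  simp only [Matrix.mul_diagonal, Matrix.diagonal_mul, Matrix.smul_apply, smul_eq_mul]
  rw [Finset.sum_eq_single j]
  · by_cases hk : k = i
    · subst hk
      by_cases hl : l = k
      · subst hl
        rw [Matrix.diagonal_apply_eq]
        ring
      · rw [hc l hl, Matrix.diagonal_apply_ne _ (Ne.symm hl)]
        ring
    · rw [ha k hk]
      by_cases hl : k = l
      · subst hl
        rw [hc k hk, Matrix.diagonal_apply_eq, hc k hk]
        ring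
      · rw [Matrix.diagonal_apply_ne _ hl]
        ring
  · intro m _ hm
    rw [hb m hm]
    ring
  · intro h
    exact absurd (Finset.mem_univ _) h

/-- The key obstruction. -/
theorem obstruction {n : ℕ} (t : Fin n → K) (ht : Function.Injective t)
    (Y Z : Matrix (Fin n) (Fin n) K) (i j : Fin n) (hij : i ≠ j)
    (s : ((Fin n → K) →ₗ[K] (Fin n → K)) →ₗ[K] ((Fin n → K) →ₗ[K] (Fin n → K)))
    (h : IsAntiAut s)
    (hA : s (Matrix.toLin' (Matrix.diagonal t)) = Matrix.toLin' (Matrix.diagonal t)) (lam : K)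
    (hU : s (comm (Matrix.toLin' (Matrix.diagonal t)) (Matrix.toLin' Y))
      = lam • comm (Matrix.toLin' (Matrix.diagonal t)) (Matrix.toLin' Z)) :
    Y i j * Y j i = lam ^ 2 * (Z i j * Z j i) := by
  classical
  -- projections
  let f : Fin n → K[X] := fun k => ∏ l ∈ Finset.univ.erase k, (X - C (t l))
  have hf : ∀ k l, l ≠ k → (f k).eval (t l) = 0 := by
    intro k l hl
    simp only [f, eval_prod]
    apply Finset.prod_eq_zero (i := l)
    · simp [hl]
    · simp
  have hf' : ∀ k, (f k).eval (t k) ≠ 0 := by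
    intro k
    simp only [f, eval_prod]
    rw [Finset.prod_ne_zero_iff]
    intro l hl
    simp only [eval_sub, eval_X, eval_C]
    rw [sub_ne_zero]
    intro h
    exact (Finset.ne_of_mem_erase hl) (ht h).symm
  have key : ∀ k, s (Matrix.toLin' (Matrix.diagonal (fun l => (f k).eval (t l))))
      = Matrix.toLin' (Matrix.diagonal (fun l => (f k).eval (t l))) := by
    intro k
    rw [← aeval_diag]
    exact anti_aeval s h _ hA _
  have cU : ∀ W : Matrix (Fin n) (Fin n) K,
      comm (Matrix.toLin' (Matrix.diagonal t)) (Matrix.toLin' W)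
        = Matrix.toLin' (Matrix.diagonal t * W - W * Matrix.diagonal t) := by
    intro W
    unfold comm
    rw [map_sub, Matrix.toLin'_mul, Matrix.toLin'_mul]
    rfl
  have eU : ∀ W : Matrix (Fin n) (Fin n) K, ∀ k l,
      (Matrix.diagonal t * W - W * Matrix.diagonal t) k l = (t k - t l) * W k l := by
    intro W k l
    rw [Matrix.sub_apply, Matrix.diagonal_mul, Matrix.mul_diagonal]
    ring
  have D0 := key i
  have D1 := key j
  have step : ∀ W : Matrix (Fin n) (Fin n) K,
      Matrix.toLin' (Matrix.diagonal (fun l => (f i).eval (t l))) ∘ₗ Matrix.toLin' W ∘ₗ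
      Matrix.toLin' (Matrix.diagonal (fun l => (f j).eval (t l))) ∘ₗ Matrix.toLin' W ∘ₗ
      Matrix.toLin' (Matrix.diagonal (fun l => (f i).eval (t l)))
      = ((f j).eval (t j) * W i j * W j i * (f i).eval (t i)) •
        Matrix.toLin' (Matrix.diagonal (fun l => (f i).eval (t l))) := by
    intro W
    rw [← Matrix.toLin'_mul, ← Matrix.toLin'_mul, ← Matrix.toLin'_mul, ← Matrix.toLin'_mul,
      ← map_smul]
    congr 1
    rw [← diag_mul_mul (fun l => (f i).eval (t l)) (fun l => (f j).eval (t l))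
      (fun l => (f i).eval (t l)) W W i j (hf i) (hf i) (hf j)]
    simp only [Matrix.mul_assoc]
  have s1 := step (Matrix.diagonal t * Y - Y * Matrix.diagonal t)
  have s2 := step (Matrix.diagonal t * Z - Z * Matrix.diagonal t)
  have a1 := congrArg s s1
  rw [h.2, h.2, h.2, h.2, map_smul, D0, D1, ← cU, hU, cU] at a1
  have a2 : ∀ (P Q : (Fin n → K) →ₗ[K] (Fin n → K)) (W : (Fin n → K) →ₗ[K] (Fin n → K)),
      (((P ∘ₗ (lam • W)) ∘ₗ Q) ∘ₗ (lam • W)) ∘ₗ P = (lam ^ 2) • (P ∘ₗ W ∘ₗ Q ∘ₗ W ∘ₗ P) := by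
    intro P Q W
    ext v
    simp [pow_two, mul_smul]
  rw [a2, s2, smul_smul, ← map_smul, ← map_smul] at a1
  have a3 := congrFun (congrFun ((Matrix.toLin').injective a1) i) i
  simp only [Matrix.smul_apply, Matrix.diagonal_apply_eq, smul_eq_mul, eU] at a3
  have n0 := hf' i
  have n1 := hf' j
  have n2 : t i - t j ≠ 0 := sub_ne_zero.mpr (fun h => hij (ht h))
  have n3 : t j - t i ≠ 0 := sub_ne_zero.mpr (fun h => hij (ht h).symm)
  have n4 : (f j).eval (t j) * (f i).eval (t i) * (f i).eval (t i) * (t i - t j) * (t j - t i) ≠ 0 :=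
    mul_ne_zero (mul_ne_zero (mul_ne_zero (mul_ne_zero n1 n0) n0) n2) n3
  apply mul_left_cancel₀ n4
  linear_combination -a3

def mh (K : Type) [Field K] : Matrix (Fin 2) (Fin 2) K := !![1, 0; 0, -1]
def my (K : Type) [Field K] : Matrix (Fin 2) (Fin 2) K := !![0, 1; 1, 0]
def mz (R k : K) : Matrix (Fin 2) (Fin 2) K := !![(R / k - k) / 2, R; 1, -((R / k - k) / 2)]

theorem rep_h (d : ℕ) : SymRep d (mh K)
    = Matrix.diagonal (fun i : Fin (d + 1) => (d : K) - 2 * i.val) := by
  ext i j
  unfold SymRep mh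
  by_cases h : i = j
  · subst h
    simp
    ring
  · rw [Matrix.diagonal_apply_ne _ h]
    have : ¬ i.val = j.val := fun h' => h (Fin.ext h')
    simp [this]

variable [CharZero K]

theorem triple (d : ℕ) (R k : K) (hR : R ≠ 0) (hk : k ≠ 0) (h1 : R ≠ k) (h2 : R ≠ -k)
    (h3 : R + k ^ 2 ≠ 0) (h4 : k ^ 2 ≠ 1) :
    IsLeonardTriple (Matrix.toLin' (SymRep d (mh K))) (Matrix.toLin' (SymRep d (my K)))
      (Matrix.toLin' (SymRep d (mz R k))) := by
  have k1 : 1 + k ≠ 0 := by
    intro h; apply h4; linear_combination (k - 1) * h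
  have k2 : 1 - k ≠ 0 := by
    intro h; apply h4; linear_combination (-k - 1) * h
  have f1 : k - R ≠ 0 := sub_ne_zero.mpr (Ne.symm h1)
  have f2 : k + R ≠ 0 := by
    intro h; apply h2; linear_combination h
  refine ⟨?_, ?_, ?_⟩
  · apply adapted d ![1, 0] ![0, 1] (by simp)
    · simp [cr, mh, Matrix.mulVec, dotProduct, Fin.sum_univ_two]
    · simp [cr, mh, Matrix.mulVec, dotProduct, Fin.sum_univ_two]
    · simp [cr, my, Matrix.mulVec, dotProduct, Fin.sum_univ_two]
    · simp [cr, my, Matrix.mulVec, dotProduct, Fin.sum_univ_two]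
    · simp [cr, mz, Matrix.mulVec, dotProduct, Fin.sum_univ_two]
    · simp [cr, mz, Matrix.mulVec, dotProduct, Fin.sum_univ_two, hR]
  · apply adapted d ![1, 1] ![1, -1] (by simp; norm_num)
    · simp [cr, my, Matrix.mulVec, dotProduct, Fin.sum_univ_two]
    · simp [cr, my, Matrix.mulVec, dotProduct, Fin.sum_univ_two]
    · simp [cr, mh, Matrix.mulVec, dotProduct, Fin.sum_univ_two]; norm_num
    · simp [cr, mh, Matrix.mulVec, dotProduct, Fin.sum_univ_two]
    · have : cr ![(1 : K), 1] (mz R k *ᵥ ![1, 1]) = (1 + k) * (k - R) / k := by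
        simp [cr, mz, Matrix.mulVec, dotProduct, Fin.sum_univ_two]
        field_simp
        ring
      rw [this]
      exact div_ne_zero (mul_ne_zero k1 f1) hk
    · have : cr ![(1 : K), -1] (mz R k *ᵥ ![1, -1]) = (1 - k) * (k + R) / k := by
        simp [cr, mz, Matrix.mulVec, dotProduct, Fin.sum_univ_two]
        field_simp
        ring
      rw [this]
      exact div_ne_zero (mul_ne_zero k2 f2) hk
  · apply adapted d ![R, k] ![-k, 1]
    · simpa [pow_two] using h3
    · simp [cr, mz, Matrix.mulVec, dotProduct, Fin.sum_univ_two]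
      field_simp
      ring
    · simp [cr, mz, Matrix.mulVec, dotProduct, Fin.sum_univ_two]
      field_simp
      ring
    · have : cr ![R, k] (mh K *ᵥ ![R, k]) = -2 * R * k := by
        simp [cr, mh, Matrix.mulVec, dotProduct, Fin.sum_univ_two]
        ring
      rw [this]
      exact mul_ne_zero (mul_ne_zero (by norm_num) hR) hk
    · have : cr ![-k, (1 : K)] (mh K *ᵥ ![-k, 1]) = 2 * k := by
        simp [cr, mh, Matrix.mulVec, dotProduct, Fin.sum_univ_two]
        ring
      rw [this]
      exact mul_ne_zero (by norm_num) hk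
    · have : cr ![R, k] (my K *ᵥ ![R, k]) = -(k - R) * (k + R) := by
        simp [cr, my, Matrix.mulVec, dotProduct, Fin.sum_univ_two]
        ring
      rw [this]
      exact mul_ne_zero (neg_ne_zero.mpr f1) f2
    · have : cr ![-k, (1 : K)] (my K *ᵥ ![-k, 1]) = -(1 + k) * (1 - k) := by
        simp [cr, my, Matrix.mulVec, dotProduct, Fin.sum_univ_two]
        ring
      rw [this]
      exact mul_ne_zero (neg_ne_zero.mpr k1) k2

theorem exists_k (R : K) : ∃ k : K, k ≠ 0 ∧ R ≠ k ∧ R ≠ -k ∧ R + k ^ 2 ≠ 0 ∧ k ^ 2 ≠ 1 := by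
  by_cases h : R ≠ 2 ∧ R ≠ -2 ∧ R + 2 ^ 2 ≠ 0
  · exact ⟨2, by norm_num, h.1, h.2.1, h.2.2, by norm_num⟩
  · refine ⟨3, by norm_num, ?_, ?_, ?_, by norm_num⟩
    · rintro rfl; apply h; norm_num
    · rintro rfl; apply h; norm_num
    · intro h'
      have : R = -9 := by linear_combination h'
      subst this
      apply h; norm_num

/-- Let `K` be a field of characteristic zero which contains a nonsquare (for example `ℚ` or
`ℝ`) and let `d ≥ 1`.  Then there is a Leonard triple `A, B, C` on `K ^ (d + 1)` such that no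
antiautomorphism `s` of `End(V)` fixes `A`, maps `[A, B]` to a scalar multiple of `[A, C]` and
`[A, C]` to a scalar multiple of `[A, B]`. -/
theorem result (K : Type) [Field K] [CharZero K] (hK : ∃ R : K, ¬ IsSquare R) (d : ℕ)
    (hd : 1 ≤ d) :
    ∃ A B C : Module.End K (Fin (d + 1) → K), IsLeonardTriple A B C ∧ ¬ HasSwap A B C := by
  obtain ⟨R, hR⟩ := hK
  obtain ⟨k, k0, k1, k2, k3, k4⟩ := exists_k R
  have hR0 : R ≠ 0 := by
    rintro rfl; exact hR ⟨0, by ring⟩
  refine ⟨_, _, _, triple d R k hR0 k0 k1 k2 k3 k4, ?_⟩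
  rintro ⟨s', ⟨hlin, hbij, hmul⟩, hA', ⟨a, hU'⟩, -⟩
  obtain ⟨s, hss⟩ : ∃ s : ((Fin (d + 1) → K) →ₗ[K] (Fin (d + 1) → K)) →ₗ[K]
      ((Fin (d + 1) → K) →ₗ[K] (Fin (d + 1) → K)), ∀ X, s X = s' X :=
    ⟨IsLinearMap.mk' s' hlin, fun X => rfl⟩
  have hs : IsAntiAut s := by
    refine ⟨?_, ?_⟩
    · have : (s : _ → _) = s' := funext hss
      rw [this]; exact hbij
    · intro X Y
      rw [hss, hss, hss]
      exact hmul X Y
  have hA := (hss _).trans hA'
  have hU := (hss _).trans hU'
  rw [rep_h] at hA hU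
  have ht : Function.Injective (fun i : Fin (d + 1) => (d : K) - 2 * i.val) := by
    intro i j hij
    have h2 : (2 : K) * i.val = 2 * j.val := by
      have h3 : (d : K) - 2 * i.val = (d : K) - 2 * j.val := hij
      linear_combination -h3
    have h4 : ((i.val : ℕ) : K) = ((j.val : ℕ) : K) := mul_left_cancel₀ (by norm_num) h2
    exact Fin.ext (by exact_mod_cast h4)
  have h0 : (0 : ℕ) < d + 1 := by omega
  have h1 : (1 : ℕ) < d + 1 := by omega
  have key := obstruction _ ht (SymRep d (my K)) (SymRep d (mz R k)) ⟨0, h0⟩ ⟨1, h1⟩ (by simp) s hs hA a hU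
  simp [SymRep, my, mz] at key
  have hd0 : (d : K) ≠ 0 := by exact_mod_cast (by omega : d ≠ 0)
  have e1 : (1 : K) = a ^ 2 * R := by
    apply mul_left_cancel₀ hd0
    linear_combination key
  have ha : a ≠ 0 := by
    rintro rfl; simp at e1
  apply hR
  refine ⟨a⁻¹, ?_⟩
  field_simp
  linear_combination -e1

end Pool.Agent.Results.MP_f77be9_al.NoAntiAut
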